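import Pool.Agent.Q284.E8.Num
import Pool.Agent.Q284.GE.All
import Pool.Agent.Q284.GE.Lev

/-!
# Project E8: the adjoint `L`-functions of `E_8` do not bound the Ramanujan exponents (assembly)
-/

set_option autoImplicit false

open Finset Polynomial ComplexConjugate

namespace Pool.Agent.Q284.E8

open Pool.Agent.Q284.PS (Prim Hay CM PD PI qq Place absPow Nice)
open Pool.Agent.Q284.GE

section Defs

variable {F : Type} [Field F] [Fintype F]

/-- the local factor at the place `P` of the adjoint `L`-function `L(s, Π ⊗ χ, Ad)` of degree `248`, for the Satake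
classes `diag (β P) ∈ SL_9(ℂ)/μ_3 ⊂ E_8(ℂ)` -/
noncomputable def adFactor (β : F[X] → Fin 9 → ℂ) (χ : F[X] → ℂ) (s : ℂ) (P : Place F) : ℂ :=
  ∏ i, (1 - adj (β P.1) i * (χ P.1 * absPow P.1 s))⁻¹

/-- at every place `P`: `∏ β_j = 1`, the numbers `β_j` are closed under conjugation, `|β_j| = |P|^(θ(P)/9)` for the
first eight and `|β_9| = |P|^(-8θ(P)/9)`; the largest absolute value of an adjoint eigenvalue is `|P|^θ(P)` -/
def Exponents (θ : F[X] → ℝ) (β : F[X] → Fin 9 → ℂ) : Prop :=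
  ∀ P : F[X], P.Monic → Irreducible P → ∏ j, β P j = 1 ∧
    (∀ w : ℂ, ∏ j, (1 - conj (β P j) * w) = ∏ j, (1 - β P j * w)) ∧
    (∀ j, j ≠ Fin.last 8 → ‖β P j‖ = (Fintype.card F : ℝ) ^ (θ P / 9 * P.natDegree)) ∧
    ‖β P (Fin.last 8)‖ = (Fintype.card F : ℝ) ^ (-(8 * θ P / 9) * P.natDegree) ∧
    (∀ i, ‖adj (β P) i‖ ≤ (Fintype.card F : ℝ) ^ (θ P * P.natDegree)) ∧
    ∃ i, ‖adj (β P) i‖ = (Fintype.card F : ℝ) ^ (θ P * P.natDegree)

end Defs

/-- the final statement -/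
def E8Stm : Prop := ∀ δ : ℝ, 0 < δ → ∃ M₀ : ℕ, 3 ≤ M₀ ∧ ∀ (F : Type) [Field F] [Fintype F]
  (θ : F[X] → ℝ), (∀ P, 0 ≤ θ P ∧ θ P ≤ 1 / 4 - δ) → ∀ ν M : ℕ, 9 ≤ ν → M₀ ≤ M →
  ∀ (D : (F[X] → ℂ) → ℕ) (ε : (F[X] → ℂ) → ℂ),
  (∀ (Q : F[X]) (l : ℕ) (χ : F[X] → ℂ), Prim Q l χ →
    ν * (Q.natDegree + max M (l + 1) - 2) ≤ D χ ∧ D (fun f => conj (χ f)) = D χ) →
  (∀ χ, ‖ε χ‖ = 1) → (∀ χ, ε (fun f => conj (χ f)) = conj (ε χ)) →
  ∃ β : F[X] → Fin 9 → ℂ, Exponents θ β ∧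
    ∀ (Q : F[X]) (l : ℕ) (χ : F[X] → ℂ), Prim Q l χ → ∃ L : ℂ → ℂ,
      Nice (Fintype.card F) (D χ) (ε χ) L ∧ RiemannHypothesis L ∧
      ∀ s : ℂ, 1 - 9 / 10 * (1 / 2 - 4 / (ν : ℝ)) < s.re → 3 / 4 - δ < s.re → HasProd (adFactor β χ s) (L s)

theorem t_e8 (hENG : ENG) (hE : ∀ x : ℝ, |x| ≤ 1 / 2 → ∃ α : Fin 8 → ℂ, Eight x α) : E8Stm := by
  classical
  intro δ hδ
  set ϑ : ℝ := 1 / 4 - δ with hϑ
  rcases lt_or_ge ϑ 0 with hneg | hpos
  · refine ⟨3, le_rfl, ?_⟩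
    intro F _ _ θ hθ
    exfalso
    have := hθ 0
    linarith
  have hpar : Par (1 / 2) 248 ϑ 4 := by
    refine ⟨by norm_num, by norm_num, hpos, by norm_num, ?_⟩
    rw [hϑ]
    push_cast
    linarith
  obtain ⟨M₀, hM3, hENG⟩ := hENG (1 / 2) 248 ϑ 4 hpar (by norm_num)
  refine ⟨M₀, hM3, ?_⟩
  intro F _ _ θ hθ ν M hν hM D ε hD hε hεc
  have hq2 := two_le_qq (F := F)
  have hq0 : 0 < qq F := by linarith
  have hq1 : 1 ≤ qq F := by linarith
  let u : F[X] → ℝ := fun P => qq F ^ (θ P / 9 * P.natDegree)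
  have hu1 : ∀ P, 1 ≤ u P := by
    intro P
    apply Real.one_le_rpow hq1
    have := (hθ P).1
    positivity
  have hu0 : ∀ P, 0 < u P := fun P => lt_of_lt_of_le one_pos (hu1 P)
  have hu9 : ∀ P, u P ^ 9 = qq F ^ (θ P * P.natDegree) := by
    intro P
    show (qq F ^ (θ P / 9 * P.natDegree)) ^ 9 = _
    rw [← Real.rpow_natCast (qq F ^ (θ P / 9 * P.natDegree)) 9, ← Real.rpow_mul hq0.le]
    congr 1
    push_cast
    ring
  have hui : ∀ P, (u P)⁻¹ ^ 8 = qq F ^ (-(8 * θ P / 9) * P.natDegree) := by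
    intro P
    show (qq F ^ (θ P / 9 * P.natDegree))⁻¹ ^ 8 = _
    rw [← Real.rpow_neg hq0.le, ← Real.rpow_natCast, ← Real.rpow_mul hq0.le]
    congr 1
    push_cast
    ring
  have huk : ∀ (P : F[X]) (k : ℕ), (u P ^ 9) ^ k ≤ qq F ^ (ϑ * (k * P.natDegree)) := by
    intro P k
    rw [hu9, ← Real.rpow_natCast (qq F ^ (θ P * P.natDegree)) k, ← Real.rpow_mul hq0.le]
    apply Real.rpow_le_rpow_of_exponent_le hq1
    have h1 := (hθ P).2
    have h2 : (0 : ℝ) ≤ (k : ℝ) * P.natDegree := by positivity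
    calc θ P * P.natDegree * k = θ P * (k * P.natDegree) := by ring
      _ ≤ ϑ * (k * P.natDegree) := mul_le_mul_of_nonneg_right h1 h2
  -- the classes
  have hex : ∀ x : ℝ, ∃ α : Fin 8 → ℂ, |x| ≤ 1 / 2 → Eight x α := by
    intro x
    by_cases h : |x| ≤ 1 / 2
    · obtain ⟨α, h1⟩ := hE x h
      exact ⟨α, fun _ => h1⟩
    · exact ⟨fun _ => 1, fun h' => absurd h' h⟩
  choose A hA using hex
  let cc : F[X] → ℝ := fun P => u P ^ 9 + (u P)⁻¹ ^ 9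
  have hcc : ∀ P, 2 ≤ cc P := fun P => sq_add_inv (hu1 P)
  let t : F[X] → ℝ → ℝ := fun P x => sol (cc P) x
  have ht1 : ∀ (P : F[X]) (x : ℝ), |x| ≤ 1 / 2 → t P x ^ 2 + cc P * t P x = x := fun P x hx => sol_eq (hcc P) hx
  have ht2 : ∀ (P : F[X]) (x : ℝ), |x| ≤ 1 / 2 → cc P * |t P x| ≤ 2 * |x| ∧ |t P x| ≤ |x| :=
    fun P x hx => sol_le (hcc P) hx
  have ht3 : ∀ (P : F[X]) (x : ℝ), |x| ≤ 1 / 2 → |t P x| ≤ 1 / 2 := fun P x hx => (ht2 P x hx).2.trans hx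
  let π : F[X] → ℝ → ℕ → ℝ := fun P x k => (∑ j, A (t P x) j ^ k).re
  have hπ : ∀ (P : F[X]) (x : ℝ), |x| ≤ 1 / 2 → ∀ k : ℕ, ∑ j, A (t P x) j ^ k = (π P x k : ℂ) := by
    intro P x hx k
    apply Complex.ext
    · rw [Complex.ofReal_re]
    · rw [Complex.ofReal_im]
      exact (hA _ (ht3 P x hx)).im k
  have hπl : ∀ (P : F[X]) (x : ℝ), |x| ≤ 1 / 2 → ∀ k : ℕ, 1 ≤ k → k ≤ 6 → π P x k = t P x ^ k := by
    intro P x hx k h1 h2
    show (∑ j, A (t P x) j ^ k).re = _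
    rw [(hA _ (ht3 P x hx)).low k h1 h2, Complex.ofReal_re]
  have hπ9 : ∀ (P : F[X]) (x : ℝ), |x| ≤ 1 / 2 → π P x 9 = t P x ^ 9 + 9 * t P x ^ 3 - 9 * t P x := by
    intro P x hx
    show (∑ j, A (t P x) j ^ 9).re = _
    rw [(hA _ (ht3 P x hx)).nine, Complex.ofReal_re]
  let p : Unit → F[X] → (Unit → ℝ) → ℕ → ℝ := fun _ P x k => tr (u P) (π P (x ())) k
  let γ : (i : Unit) → F[X] → (Unit → ℝ) → Idx → ℂ := fun _ P x => adj (nine (u P) (A (t P (x ()))))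
  have hγp : ∀ (i : Unit) (P : F[X]) (x : Unit → ℝ), (∀ j, |x j| ≤ 1 / 2) → ∀ k : ℕ,
      ∑ y, γ i P x y ^ k = (p i P x k : ℂ) := by
    intro i P x hx k
    exact sum_adj_nine (hu0 P) (hA _ (ht3 P _ (hx ()))).norm (hπ P _ (hx ())) k
  have hγn : ∀ (i : Unit) (P : F[X]) (x : Unit → ℝ), (∀ j, |x j| ≤ 1 / 2) → ∀ y, ‖γ i P x y‖ ≤ u P ^ 9 := by
    intro i P x hx y
    exact norm_adj_le (hu1 P) (hA _ (ht3 P _ (hx ()))).norm y
  have hloc : Loc F Unit (1 / 2) 248 ϑ 4 p := by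
    refine ⟨?_, ?_, ?_⟩
    · intro i P x _ _ hx
      show tr (u P) (π P (x ())) 1 = x ()
      exact tr_one (ht1 P _ (hx ())) (hπl P _ (hx ()))
    · intro i P x k s _ _ hs hx h2 h3
      have hx' := hx ()
      have hx2 : |x ()| ≤ 1 / 2 := hx'.trans hs
      show |tr (u P) (π P (x ())) k| ≤ 248 * s
      have hk : k = 2 ∨ k = 3 := by omega
      rcases hk with rfl | rfl
      · exact (tr_two (hu1 P) (ht2 P _ hx2).1 (ht2 P _ hx2).2 hx2 (hπl P _ hx2)).trans (by linarith)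
      · exact (tr_three (hu1 P) (ht2 P _ hx2).1 (ht2 P _ hx2).2 hx2 (hπl P _ hx2) (hπ9 P _ hx2)).trans
          (by linarith)
    · intro i P x k _ _ hx _
      have h1 : |p i P x k| = ‖∑ y, γ i P x y ^ k‖ := by
        rw [hγp i P x hx k, Complex.norm_real, Real.norm_eq_abs]
      rw [h1]
      calc ‖∑ y, γ i P x y ^ k‖ ≤ ∑ y, ‖γ i P x y ^ k‖ := norm_sum_le _ _
        _ ≤ ∑ _y : Idx, (u P ^ 9) ^ k := by
            apply sum_le_sum
            intro y _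
            rw [norm_pow]
            exact pow_le_pow_left₀ (norm_nonneg _) (hγn i P x hx y) k
        _ = 248 * (u P ^ 9) ^ k := by
            rw [sum_const, card_univ, card_idx, nsmul_eq_mul]
            push_cast
            ring
        _ ≤ 248 * qq F ^ (ϑ * (k * P.natDegree)) := mul_le_mul_of_nonneg_left (huk P k) (by norm_num)
  have hγ : ∀ (i : Unit) (P : F[X]) (x : Unit → ℝ), P.Monic → Irreducible P → (∀ j, |x j| ≤ 1 / 2) →
      (∀ y, ‖γ i P x y‖ ≤ qq F ^ (ϑ * P.natDegree)) ∧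
        ∀ k : ℕ, 1 ≤ k → ∑ y, γ i P x y ^ k = (p i P x k : ℂ) := by
    intro i P x _ _ hx
    refine ⟨?_, fun k _ => hγp i P x hx k⟩
    intro y
    have h1 := huk P 1
    rw [pow_one, Nat.cast_one, one_mul] at h1
    exact (hγn i P x hx y).trans h1
  have hdat : Dat F Unit ν M (fun _ χ => D χ) (fun _ χ => ε χ) :=
    ⟨fun _ Q l χ hχ => (hD Q l χ hχ).1, fun _ Q l χ hχ => (hD Q l χ hχ).2, fun _ χ => hε χ, fun _ χ => hεc χ⟩
  obtain ⟨a, ha, hmain⟩ := hENG F Unit p hloc (fun _ => Idx) γ hγ ν M hν hM _ _ hdat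
  refine ⟨fun P => nine (u P) (A (t P (a P ()))), ?_, ?_⟩
  · intro P h1 h2
    have h3 := hA _ (ht3 P _ (ha P () h1 h2).1)
    have hc : (u P : ℂ) ≠ 0 := by exact_mod_cast (hu0 P).ne'
    beta_reduce
    refine ⟨?_, ?_, ?_, ?_, ?_, ?_⟩
    · rw [Fin.prod_univ_castSucc, nine_last]
      simp only [nine_castSucc]
      rw [prod_mul_distrib, h3.prod, prod_const, card_univ, Fintype.card_fin, mul_one, ← mul_pow,
        mul_inv_cancel₀ hc, one_pow]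
    · intro w
      simp only [Fin.prod_univ_castSucc (n := 8), nine_last, nine_castSucc]
      congr 1
      · have h4 := h3.cj ((u P : ℂ) * w)
        have h5 : ∀ z : ℂ, z * ((u P : ℂ) * w) = (u P : ℂ) * z * w := fun z => by ring
        simp only [h5] at h4
        simp only [map_mul, Complex.conj_ofReal]
        exact h4
      · rw [map_pow, map_inv₀, Complex.conj_ofReal]
    · intro j hj
      rw [norm_nine (hu1 P) h3.norm, if_neg hj]
      rfl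
    · rw [norm_nine (hu1 P) h3.norm, if_pos rfl, hui]
      rfl
    · intro i
      have := norm_adj_le (hu1 P) h3.norm i
      rw [hu9] at this
      exact this
    · obtain ⟨i, hi⟩ := norm_adj_eq (hu1 P) h3.norm
      rw [hu9] at hi
      exact ⟨i, hi⟩
  · intro Q l χ hχ
    obtain ⟨L, h1, h2, h3⟩ := hmain () Q l χ hχ
    refine ⟨L, h1, h2, ?_⟩
    intro s hs1 hs2
    exact h3 s hs1 (by rw [hϑ]; linarith)

theorem e8Stm : E8Stm :=
  t_e8 eng (eight Pool.Agent.Q150.GE.t_CIR Pool.Agent.Q96.GE.t_TGT)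

end Pool.Agent.Q284.E8
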