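import Pool.Agent.Q284.E8.Tr

/-!
# Project E8: norms of the eigenvalues and bounds for the traces
-/

set_option autoImplicit false

open Finset Polynomial ComplexConjugate

namespace Pool.Agent.Q284.E8

open Pool.Agent.Q284.GE

theorem card_idx : Fintype.card Idx = 248 := by
  have h1 : Fintype.card {p : Fin 9 × Fin 9 // p.1 ≠ p.2} = 72 := by decide
  have h2 : Fintype.card {S : Finset (Fin 9) // S ∈ powersetCard 3 (univ : Finset (Fin 9))} = 84 := by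
    rw [Fintype.card_coe, card_powersetCard, card_univ, Fintype.card_fin]
    rfl
  simp only [Idx, Fintype.card_sum, Fintype.card_fin]
  rw [h1, h2]

theorem norm_nine {u : ℝ} (hu : 1 ≤ u) {α : Fin 8 → ℂ} (hn : ∀ j, ‖α j‖ = 1) (j : Fin 9) :
    ‖nine u α j‖ = if j = Fin.last 8 then u⁻¹ ^ 8 else u := by
  have hu0 : 0 < u := by linarith
  refine Fin.lastCases ?_ (fun i => ?_) j
  · rw [nine_last, if_pos rfl, norm_pow, norm_inv, Complex.norm_real, Real.norm_eq_abs, abs_of_pos hu0]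
  · rw [nine_castSucc, if_neg (Fin.castSucc_lt_last i).ne, norm_mul, hn, mul_one, Complex.norm_real,
      Real.norm_eq_abs, abs_of_pos hu0]

theorem norm_adj_le {u : ℝ} (hu : 1 ≤ u) {α : Fin 8 → ℂ} (hn : ∀ j, ‖α j‖ = 1) (i : Idx) :
    ‖adj (nine u α) i‖ ≤ u ^ 9 := by
  have hu0 : 0 < u := by linarith
  have hi0 : 0 < u⁻¹ := inv_pos.2 hu0
  have hi1 : u⁻¹ ≤ 1 := inv_le_one_of_one_le₀ hu
  have h8 : u⁻¹ ^ 8 ≤ 1 := pow_le_one₀ hi0.le hi1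
  have h9 : (1 : ℝ) ≤ u ^ 9 := one_le_pow₀ hu
  have hle : ∀ j, ‖nine u α j‖ ≤ u := by
    intro j
    rw [norm_nine hu hn]
    split_ifs
    · linarith
    · exact le_rfl
  have hge : ∀ j, u⁻¹ ^ 8 ≤ ‖nine u α j‖ := by
    intro j
    rw [norm_nine hu hn]
    split_ifs
    · exact le_rfl
    · linarith
  have hpos : ∀ j, 0 < ‖nine u α j‖ := fun j => lt_of_lt_of_le (by positivity) (hge j)
  rcases i with p | _ | S | S
  · show ‖nine u α p.1.1 / nine u α p.1.2‖ ≤ u ^ 9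
    rw [norm_div, div_le_iff₀ (hpos _)]
    refine (hle _).trans ?_
    have h1 : u = u ^ 9 * u⁻¹ ^ 8 := by
      field_simp
    calc u = u ^ 9 * u⁻¹ ^ 8 := h1
      _ ≤ u ^ 9 * ‖nine u α p.1.2‖ := mul_le_mul_of_nonneg_left (hge _) (by positivity)
  · show ‖(1 : ℂ)‖ ≤ u ^ 9
    rw [norm_one]
    exact h9
  · show ‖∏ j ∈ S.1, nine u α j‖ ≤ u ^ 9
    have hc : S.1.card = 3 := (mem_powersetCard.1 S.2).2
    rw [norm_prod]
    calc ∏ j ∈ S.1, ‖nine u α j‖ ≤ ∏ _j ∈ S.1, u := prod_le_prod (fun j _ => (hpos j).le) (fun j _ => hle j)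
      _ = u ^ 3 := by rw [prod_const, hc]
      _ ≤ u ^ 9 := pow_le_pow_right₀ hu (by norm_num)
  · show ‖(∏ j ∈ S.1, nine u α j)⁻¹‖ ≤ u ^ 9
    rw [norm_inv, norm_prod]
    have h1 : u⁻¹ ^ 8 ≤ ∏ j ∈ S.1, ‖nine u α j‖ := by
      calc u⁻¹ ^ 8 ≤ ∏ j ∈ S.1, (if j = Fin.last 8 then u⁻¹ ^ 8 else 1) := by
            rw [prod_ite_eq']
            split_ifs
            · exact le_rfl
            · exact h8
        _ ≤ ∏ j ∈ S.1, ‖nine u α j‖ := by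
            apply prod_le_prod
            · intro j _
              split_ifs <;> positivity
            · intro j _
              rw [norm_nine hu hn]
              split_ifs
              · exact le_rfl
              · exact hu
    have h2 : (∏ j ∈ S.1, ‖nine u α j‖)⁻¹ ≤ (u⁻¹ ^ 8)⁻¹ := inv_anti₀ (by positivity) h1
    refine h2.trans ?_
    rw [inv_pow, inv_inv]
    exact pow_le_pow_right₀ hu (by norm_num)

theorem norm_adj_eq {u : ℝ} (hu : 1 ≤ u) {α : Fin 8 → ℂ} (hn : ∀ j, ‖α j‖ = 1) :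
    ∃ i : Idx, ‖adj (nine u α) i‖ = u ^ 9 := by
  have hu0 : 0 < u := by linarith
  refine ⟨Sum.inl ⟨(0, Fin.last 8), by decide⟩, ?_⟩
  show ‖nine u α 0 / nine u α (Fin.last 8)‖ = u ^ 9
  rw [norm_div, norm_nine hu hn, norm_nine hu hn, if_neg (by decide), if_pos rfl]
  field_simp

/-- the solution of `t² + c t = x` near `0` -/
noncomputable def sol (c x : ℝ) : ℝ := (-c + Real.sqrt (c ^ 2 + 4 * x)) / 2

theorem sol_eq {c x : ℝ} (hc : 2 ≤ c) (hx : |x| ≤ 1 / 2) : sol c x ^ 2 + c * sol c x = x := by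
  have h1 : 0 ≤ c ^ 2 + 4 * x := by
    have := (abs_le.1 hx).1
    nlinarith
  have h2 := Real.sq_sqrt h1
  unfold sol
  linear_combination h2 / 4

theorem sol_le {c x : ℝ} (hc : 2 ≤ c) (hx : |x| ≤ 1 / 2) : c * |sol c x| ≤ 2 * |x| ∧ |sol c x| ≤ |x| := by
  have h0 := sol_eq hc hx
  have h1 : c / 2 ≤ sol c x + c := by
    unfold sol
    have := Real.sqrt_nonneg (c ^ 2 + 4 * x)
    linarith
  have h2 : |sol c x| * (sol c x + c) = |x| := by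
    have h4 : sol c x * (sol c x + c) = x := by linear_combination h0
    have h5 : |sol c x * (sol c x + c)| = |x| := by rw [h4]
    rwa [abs_mul, abs_of_pos (show 0 < sol c x + c by linarith)] at h5
  have h3 := abs_nonneg (sol c x)
  constructor
  · nlinarith
  · nlinarith

theorem sq_add_inv {u : ℝ} (hu : 1 ≤ u) : 2 ≤ u ^ 9 + u⁻¹ ^ 9 := by
  have hu0 : 0 < u := by linarith
  have h1 : u ^ 9 * u⁻¹ ^ 9 = 1 := by
    rw [← mul_pow, mul_inv_cancel₀ hu0.ne', one_pow]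
  have h2 : 0 < u ^ 9 := by positivity
  have h3 : 0 < u⁻¹ ^ 9 := by positivity
  nlinarith [sq_nonneg (u ^ 9 - u⁻¹ ^ 9), sq_nonneg (u ^ 9 + u⁻¹ ^ 9 - 2)]

theorem tr_one {u t x : ℝ} {π : ℕ → ℝ} (ht : t ^ 2 + (u ^ 9 + u⁻¹ ^ 9) * t = x)
    (hπ : ∀ k : ℕ, 1 ≤ k → k ≤ 6 → π k = t ^ k) : tr u π 1 = x := by
  unfold tr
  rw [hπ 1 le_rfl (by norm_num), hπ (2 * 1) (by norm_num) (by norm_num), hπ (3 * 1) (by norm_num) (by norm_num)]
  rw [← ht]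
  ring

theorem tr_two {u t x : ℝ} {π : ℕ → ℝ} (hu : 1 ≤ u) (h1 : (u ^ 9 + u⁻¹ ^ 9) * |t| ≤ 2 * |x|) (h2 : |t| ≤ |x|)
    (hx : |x| ≤ 1 / 2) (hπ : ∀ k : ℕ, 1 ≤ k → k ≤ 6 → π k = t ^ k) : |tr u π 2| ≤ 248 * |x| := by
  have hu0 : 0 < u := by linarith
  obtain ⟨c, hc⟩ : ∃ c, c = u ^ 9 + u⁻¹ ^ 9 := ⟨_, rfl⟩
  have hc2 : 2 ≤ c := by
    rw [hc]
    exact sq_add_inv hu
  have e1 : u ^ (9 * 2) + u⁻¹ ^ (9 * 2) = c ^ 2 - 2 := by
    have h3 : u ^ 9 * u⁻¹ ^ 9 = 1 := by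
      rw [← mul_pow, mul_inv_cancel₀ hu0.ne', one_pow]
    rw [hc]
    linear_combination (-2) * h3
  have e2 : tr u π 2 = t ^ 4 + (c ^ 2 - 2) * t ^ 2 := by
    unfold tr
    rw [hπ 2 (by norm_num) (by norm_num), hπ (2 * 2) (by norm_num) (by norm_num), hπ (3 * 2) (by norm_num) (by norm_num),
      e1]
    ring
  rw [← hc] at h1
  rw [e2]
  have ht := abs_nonneg t
  have hx0 := abs_nonneg x
  have h4 : t ^ 2 = |t| ^ 2 := (sq_abs t).symm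
  have h5 : t ^ 4 = |t| ^ 4 := by
    rw [show t ^ 4 = (t ^ 2) ^ 2 by ring, h4]
    ring
  rw [h4, h5]
  obtain ⟨z, hz⟩ : ∃ z, z = |t| := ⟨_, rfl⟩
  obtain ⟨y, hy⟩ : ∃ y, y = |x| := ⟨_, rfl⟩
  rw [← hz] at h1 h2 ht ⊢
  rw [← hy] at h1 h2 hx hx0 ⊢
  have k1 : 0 ≤ (c ^ 2 - 2) * z ^ 2 := by
    apply mul_nonneg _ (by positivity)
    nlinarith
  rw [abs_of_nonneg (by positivity)]
  have k2 : (c * z) ^ 2 ≤ (2 * y) ^ 2 := pow_le_pow_left₀ (by positivity) h1 2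
  have k3 : z ^ 4 ≤ y ^ 4 := pow_le_pow_left₀ ht h2 4
  have k4 : y ^ 4 ≤ y ^ 1 := pow_le_pow_of_le_one hx0 (by linarith) (by norm_num)
  have k5 : y ^ 2 ≤ y ^ 1 := pow_le_pow_of_le_one hx0 (by linarith) (by norm_num)
  nlinarith [sq_nonneg z]

theorem tr_three {u t x : ℝ} {π : ℕ → ℝ} (hu : 1 ≤ u) (h1 : (u ^ 9 + u⁻¹ ^ 9) * |t| ≤ 2 * |x|) (h2 : |t| ≤ |x|)
    (hx : |x| ≤ 1 / 2) (hπ : ∀ k : ℕ, 1 ≤ k → k ≤ 6 → π k = t ^ k) (h9 : π 9 = t ^ 9 + 9 * t ^ 3 - 9 * t) :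
    |tr u π 3| ≤ 248 * |x| := by
  have hu0 : 0 < u := by linarith
  obtain ⟨c, hc⟩ : ∃ c, c = u ^ 9 + u⁻¹ ^ 9 := ⟨_, rfl⟩
  have hc2 : 2 ≤ c := by
    rw [hc]
    exact sq_add_inv hu
  have h3 : u ^ 9 * u⁻¹ ^ 9 = 1 := by
    rw [← mul_pow, mul_inv_cancel₀ hu0.ne', one_pow]
  have e1 : u ^ (9 * 3) + u⁻¹ ^ (9 * 3) = c ^ 3 - 3 * c := by
    rw [hc]
    linear_combination (-3) * (u ^ 9 + u⁻¹ ^ 9) * h3
  have e3 : u ^ (3 * 3) + u⁻¹ ^ (3 * 3) = c := by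
    rw [hc]
  have e2 : tr u π 3 = t ^ 6 + (c ^ 3 - 3 * c) * t ^ 3 + c * (3 * t ^ 3 - 3 * t) := by
    unfold tr
    rw [hπ 3 (by norm_num) (by norm_num), hπ (2 * 3) (by norm_num) (by norm_num), show 3 * 3 = 9 by norm_num, h9,
      show u ^ (9 : ℕ) + u⁻¹ ^ (9 : ℕ) = c from hc.symm, e1]
    ring
  rw [← hc] at h1
  rw [e2]
  have ht := abs_nonneg t
  have hx0 := abs_nonneg x
  have k1 : |t ^ 6 + (c ^ 3 - 3 * c) * t ^ 3 + c * (3 * t ^ 3 - 3 * t)| ≤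
      |t| ^ 6 + (c * |t|) ^ 3 + 3 * (c * |t|) * |t| ^ 2 + 3 * (c * |t|) * |t| ^ 2 + 3 * (c * |t|) := by
    have e4 : t ^ 6 + (c ^ 3 - 3 * c) * t ^ 3 + c * (3 * t ^ 3 - 3 * t) =
        t ^ 6 + (c * t) ^ 3 + (-(3 * (c * t) * t ^ 2)) + 3 * (c * t) * t ^ 2 + (-(3 * (c * t))) := by ring
    rw [e4]
    have hcc : |c| = c := abs_of_pos (by linarith)
    refine (abs_add_le _ _).trans (add_le_add ((abs_add_le _ _).trans (add_le_add ((abs_add_le _ _).trans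
      (add_le_add ((abs_add_le _ _).trans (add_le_add ?_ ?_)) ?_)) ?_)) ?_)
    · rw [abs_pow]
    · rw [abs_pow, abs_mul, hcc]
    · rw [abs_neg, abs_mul, abs_mul, abs_mul, abs_pow, hcc, abs_of_pos (by norm_num : (0 : ℝ) < 3)]
    · rw [abs_mul, abs_mul, abs_mul, abs_pow, hcc, abs_of_pos (by norm_num : (0 : ℝ) < 3)]
    · rw [abs_neg, abs_mul, abs_mul, hcc, abs_of_pos (by norm_num : (0 : ℝ) < 3)]
  refine k1.trans ?_
  obtain ⟨z, hz⟩ : ∃ z, z = |t| := ⟨_, rfl⟩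
  obtain ⟨y, hy⟩ : ∃ y, y = |x| := ⟨_, rfl⟩
  rw [← hz] at h1 h2 ht ⊢
  rw [← hy] at h1 h2 hx hx0 ⊢
  have hcz : 0 ≤ c * z := by positivity
  have k3 : z ^ 6 ≤ y ^ 6 := pow_le_pow_left₀ ht h2 6
  have k4 : y ^ 6 ≤ y ^ 1 := pow_le_pow_of_le_one hx0 (by linarith) (by norm_num)
  have k5 : (c * z) ^ 3 ≤ (2 * y) ^ 3 := pow_le_pow_left₀ hcz h1 3
  have k6 : y ^ 3 ≤ y ^ 1 := pow_le_pow_of_le_one hx0 (by linarith) (by norm_num)
  have k7 : z ^ 2 ≤ 1 := by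
    have : z ≤ 1 := by linarith
    exact pow_le_one₀ ht this
  have k8 : 3 * (c * z) * z ^ 2 ≤ 3 * (c * z) * 1 := mul_le_mul_of_nonneg_left k7 (by positivity)
  nlinarith

end Pool.Agent.Q284.E8
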