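import Pool.Agent.Q198.GE.LFB

/-!
# Project E8: the eight numbers `α_j`

`b(z) = 1 - x z - x z^7 + z^8 = ∏ (1 - α_j z)`: `|α_j| = 1`, product `1`, closed under conjugation, power sums
`x^k` (`1 ≤ k ≤ 6`), `x^7 + 7 x`, `x^8 + 8 x^2 - 8`, `x^9 + 9 x^3 - 9 x`.
-/

set_option autoImplicit false

open Finset Polynomial ComplexConjugate

namespace Pool.Agent.Q284.E8

open Pool.Agent.Q284.GE Pool.Agent.Q182.GE Pool.Agent.Q96.GE

/-- the eight numbers -/
structure Eight (x : ℝ) (α : Fin 8 → ℂ) : Prop where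
  norm : ∀ j, ‖α j‖ = 1
  prod : ∏ j, α j = 1
  cj : ∀ w : ℂ, ∏ j, (1 - conj (α j) * w) = ∏ j, (1 - α j * w)
  im : ∀ k : ℕ, (∑ j, α j ^ k).im = 0
  low : ∀ k : ℕ, 1 ≤ k → k ≤ 6 → ∑ j, α j ^ k = ((x ^ k : ℝ) : ℂ)
  nine : ∑ j, α j ^ 9 = ((x ^ 9 + 9 * x ^ 3 - 9 * x : ℝ) : ℂ)

theorem conj_prod {n : ℕ} {α : Fin n → ℂ} (h : ∀ k, esym (fun j => conj (α j)) k = esym α k) (w : ℂ) :
    ∏ j, (1 - conj (α j) * w) = ∏ j, (1 - α j * w) := by
  have h1 : ∀ β : Fin n → ℂ, ∏ j, (1 - β j * w) = (∏ j, (1 - C (β j) * X)).eval w := by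
    intro β
    rw [eval_prod]
    apply Finset.prod_congr rfl
    intro j _
    simp
  rw [h1 (fun j => conj (α j)), h1 α]
  congr 1
  ext k
  rw [coeff_prod, coeff_prod, h]

theorem sum_im {n : ℕ} {α : Fin n → ℂ} (h : ∀ k, esym (fun j => conj (α j)) k = esym α k) (k : ℕ) :
    (∑ j, α j ^ k).im = 0 := by
  rw [← Complex.conj_eq_iff_im, map_sum]
  have h1 := multiset_of_esym (α := fun j => conj (α j)) (β := α) h
  have h2 := congrArg (fun s : Multiset ℂ => (s.map (fun z : ℂ => z ^ k)).sum) h1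
  simp only [Multiset.map_map] at h2
  have h3 : ∀ f : Fin n → ℂ, (Multiset.map f (univ : Finset (Fin n)).val).sum = ∑ j, f j := fun f => rfl
  simp only [h3, Function.comp_apply] at h2
  rw [← h2]
  refine sum_congr rfl (fun j _ => ?_)
  rw [map_pow]

theorem esym_top {n : ℕ} (α : Fin n → ℂ) : esym α n = ∏ j, α j := by
  unfold esym
  have : powersetCard n (univ : Finset (Fin n)) = {univ} := by
    have h2 := Finset.powersetCard_self (univ : Finset (Fin n))
    rwa [card_univ, Fintype.card_fin] at h2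
  rw [this, Finset.sum_singleton]

theorem eight (hcir : S_CIR) (htgt : S_TGT) : ∀ x : ℝ, |x| ≤ 1 / 2 → ∃ α : Fin 8 → ℂ, Eight x α := by
  classical
  intro x hx
  obtain ⟨A, hA⟩ : ∃ A : ℂ[X], A = 1 - C ((x : ℝ) : ℂ) * X := ⟨_, rfl⟩
  have hA0 : A.coeff 0 = 1 := by
    rw [hA]
    simp
  have hA1 : A.coeff 1 = -((x : ℝ) : ℂ) := by
    rw [hA]
    simp [coeff_one]
  have hA2 : ∀ m : ℕ, 2 ≤ m → A.coeff m = 0 := by
    intro m hm
    obtain ⟨k, rfl⟩ : ∃ k, m = k + 1 := ⟨m - 1, by omega⟩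
    rw [hA, coeff_sub, coeff_one, if_neg (by omega), coeff_C_mul, coeff_X, if_neg (by omega), mul_zero, sub_zero]
  have hAn : ∀ m : ℕ, 8 ≤ 2 * m → A.coeff m = 0 := fun m hm => hA2 m (by omega)
  have hAz : ∀ z : ℂ, ‖z‖ ≤ 1 → A.eval z ≠ 0 := by
    intro z hz h0
    rw [hA, eval_sub, eval_one, eval_mul, eval_C, eval_X] at h0
    have h1 : ((x : ℝ) : ℂ) * z = 1 := (sub_eq_zero.1 h0).symm
    have h2 : ‖((x : ℝ) : ℂ) * z‖ ≤ 1 / 2 := by
      rw [norm_mul, Complex.norm_real, Real.norm_eq_abs]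
      calc |x| * ‖z‖ ≤ 1 / 2 * 1 := mul_le_mul hx hz (norm_nonneg _) (by norm_num)
        _ = 1 / 2 := mul_one _
    rw [h1, norm_one] at h2
    norm_num at h2
  obtain ⟨b, hb, hb1, hb2⟩ := hcir 8 1 A (by omega) (by simp) hA0 hAn hAz
  obtain ⟨⟨α, hα, hbα⟩, -⟩ := htgt 8 1 b hb
  have hbc : ∀ k, b.coeff k = (-1) ^ k * esym α k := fun k => by rw [hbα, coeff_prod]
  have hsq1 : ∀ k : ℕ, ((-1 : ℂ) ^ k) * (-1) ^ k = 1 := by
    intro k
    rw [← mul_pow, neg_one_mul, neg_neg, one_pow]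
  have hec : ∀ k, esym α k = (-1) ^ k * b.coeff k := by
    intro k
    rw [hbc, ← mul_assoc, hsq1, one_mul]
  have hb0 : b.coeff 0 = 1 := hb.zero
  have hb1' : b.coeff 1 = -((x : ℝ) : ℂ) := by rw [hb1 1 (by omega), hA1]
  have c2 : b.coeff 2 = 0 := by rw [hb1 2 (by omega), hA2 2 (by omega)]
  have c3 : b.coeff 3 = 0 := by rw [hb1 3 (by omega), hA2 3 (by omega)]
  have c4 : b.coeff 4 = 0 := hb2 4 (by omega)
  have c5 : b.coeff 5 = 0 := by
    have := hb.fe 3 (by omega)
    rw [c3, map_zero, mul_zero] at this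
    exact this
  have c6 : b.coeff 6 = 0 := by
    have := hb.fe 2 (by omega)
    rw [c2, map_zero, mul_zero] at this
    exact this
  have c7 : b.coeff 7 = -((x : ℝ) : ℂ) := by
    have := hb.fe 1 (by omega)
    rw [hb1', map_neg, Complex.conj_ofReal, one_mul] at this
    exact this
  have c8 : b.coeff 8 = 1 := by
    have := hb.fe 0 (by omega)
    rw [hb0, map_one, mul_one] at this
    exact this
  have hev : ∀ z : ℂ, b.eval z = 1 - x * z - x * z ^ 7 + z ^ 8 := by
    intro z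
    rw [eval_eq_sum_range, hb.deg]
    simp only [sum_range_succ, sum_range_zero, hb0, hb1', c2, c3, c4, c5, c6, c7, c8]
    ring
  have hreal : ∀ k, conj (b.coeff k) = b.coeff k := by
    intro k
    rcases Nat.lt_or_ge k 9 with h | h
    · interval_cases k
      · rw [hb0, map_one]
      · rw [hb1', map_neg, Complex.conj_ofReal]
      · rw [c2, map_zero]
      · rw [c3, map_zero]
      · rw [c4, map_zero]
      · rw [c5, map_zero]
      · rw [c6, map_zero]
      · rw [c7, map_neg, Complex.conj_ofReal]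
      · rw [c8, map_one]
    · have : b.coeff k = 0 := coeff_eq_zero_of_natDegree_lt (by rw [hb.deg]; omega)
      rw [this, map_zero]
  have hesr : ∀ k, conj (esym α k) = esym α k := by
    intro k
    rw [hec, map_mul, hreal, map_pow, map_neg, map_one]
  have hesr2 : ∀ k, esym (fun j => conj (α j)) k = esym α k := fun k => by rw [← esym_conj, hesr]
  -- every `α_j` is a root
  have hroot : ∀ j, α j ^ 8 = x * α j ^ 7 + x * α j - 1 ∧ α j ^ 7 = x * α j ^ 6 + x - conj (α j) := by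
    intro j
    have h1 : conj (α j) * α j = 1 := by
      rw [mul_comm, Complex.mul_conj, Complex.normSq_eq_norm_sq, hα j]
      norm_num
    have h2 : b.eval (conj (α j)) = 0 := by
      rw [hbα, eval_prod]
      apply prod_eq_zero (mem_univ j)
      rw [eval_sub, eval_one, eval_mul, eval_C, eval_X, mul_comm, h1, sub_self]
    rw [hev] at h2
    have h3 : ∀ n : ℕ, conj (α j) ^ n * α j ^ n = 1 := by
      intro n
      rw [← mul_pow, h1, one_pow]
    have h4 : (1 - x * conj (α j) - x * conj (α j) ^ 7 + conj (α j) ^ 8) * α j ^ 8 = 0 := by rw [h2, zero_mul]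
    have h5 : (1 - x * conj (α j) - x * conj (α j) ^ 7 + conj (α j) ^ 8) * α j ^ 8 =
        α j ^ 8 - x * (conj (α j) * α j) * α j ^ 7 - x * (conj (α j) ^ 7 * α j ^ 7) * α j +
          conj (α j) ^ 8 * α j ^ 8 := by ring
    rw [h5, h1, h3, h3] at h4
    have h6 : α j ^ 8 = x * α j ^ 7 + x * α j - 1 := by linear_combination h4
    refine ⟨h6, ?_⟩
    have h7 : α j ^ 7 = (conj (α j) * α j) * α j ^ 7 := by rw [h1, one_mul]
    have h8 : (conj (α j) * α j) * α j ^ 7 = conj (α j) * α j ^ 8 := by ring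
    rw [h7, h8, h6]
    have h9 : conj (α j) * (x * α j ^ 7 + x * α j - 1) =
        x * (conj (α j) * α j) * α j ^ 6 + x * (conj (α j) * α j) - conj (α j) := by ring
    rw [h9, h1]
    ring
  have hlow : ∀ k : ℕ, 1 ≤ k → k ≤ 6 → ∑ j, α j ^ k = ((x ^ k : ℝ) : ℂ) := by
    intro k hk hkn
    have hmid : ∀ m, 2 ≤ m → m ≤ 6 → b.coeff m = 0 := by
      intro m h1 h2
      interval_cases m
      · exact c2
      · exact c3
      · exact c4
      · exact c5
      · exact c6
    induction k, hk using Nat.le_induction with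
    | base =>
      have h1 := Pool.Agent.Q198.GE.newt α hbα (le_refl 1)
      rw [Icc_self, sum_singleton, Nat.sub_self, hb0, hb1', Nat.cast_one, one_mul, mul_one] at h1
      have h2 := neg_injective h1
      rw [pow_one]
      exact h2.symm
    | succ k hk ih =>
      have h0 := ih (by omega)
      have h1 := Pool.Agent.Q198.GE.newt α hbα (show 1 ≤ k + 1 by omega)
      rw [hmid (k + 1) (by omega) hkn, mul_zero] at h1
      obtain ⟨t, rfl⟩ : ∃ t, k = t + 1 := ⟨k - 1, by omega⟩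
      have hI : Icc 1 (t + 1 + 1) = insert (t + 1 + 1) (insert (t + 1) (Icc 1 t)) := by
        ext m
        simp only [mem_Icc, mem_insert]
        omega
      rw [hI, sum_insert (by simp), sum_insert (by simp)] at h1
      have h2 : ∑ m ∈ Icc 1 t, (- ∑ j, α j ^ m) * b.coeff (t + 1 + 1 - m) = 0 := by
        refine sum_eq_zero (fun m hm => ?_)
        rw [mem_Icc] at hm
        rw [hmid (t + 1 + 1 - m) (by omega) (by omega), mul_zero]
      rw [h2, add_zero, Nat.sub_self, hb0, show t + 1 + 1 - (t + 1) = 1 by omega, hb1', h0] at h1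
      have h3 : ∑ j, α j ^ (t + 1 + 1) = ((x ^ (t + 1) : ℝ) : ℂ) * ((x : ℝ) : ℂ) := by
        linear_combination h1
      rw [h3]
      push_cast
      ring
  have p1 := hlow 1 le_rfl (by omega)
  have p2 := hlow 2 (by omega) (by omega)
  have p6 := hlow 6 (by omega) le_rfl
  simp only [pow_one] at p1
  have p7 : ∑ j, α j ^ 7 = (x : ℂ) ^ 7 + 7 * x := by
    rw [sum_congr rfl (fun j _ => (hroot j).2), sum_sub_distrib, sum_add_distrib, ← mul_sum, p6, ← map_sum, p1,
      Complex.conj_ofReal]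
    simp only [sum_const, card_univ, Fintype.card_fin, nsmul_eq_mul]
    push_cast
    ring
  have p8 : ∑ j, α j ^ 8 = (x : ℂ) ^ 8 + 8 * x ^ 2 - 8 := by
    rw [sum_congr rfl (fun j _ => (hroot j).1), sum_sub_distrib, sum_add_distrib, ← mul_sum, ← mul_sum, p7, p1]
    simp only [sum_const, card_univ, Fintype.card_fin, nsmul_eq_mul]
    push_cast
    ring
  have p9 : ∑ j, α j ^ 9 = (x : ℂ) ^ 9 + 9 * x ^ 3 - 9 * x := by
    have h1 : ∀ j, α j ^ 9 = x * α j ^ 8 + x * α j ^ 2 - α j := by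
      intro j
      linear_combination α j * (hroot j).1
    rw [sum_congr rfl (fun j _ => h1 j), sum_sub_distrib, sum_add_distrib, ← mul_sum, ← mul_sum, p8, p2, p1]
    push_cast
    ring
  refine ⟨α, hα, ?_, ?_, ?_, hlow, ?_⟩
  · rw [← esym_top, hec, c8]
    norm_num
  · exact conj_prod hesr2
  · exact sum_im hesr2
  · rw [p9]
    push_cast
    ring

end Pool.Agent.Q284.E8
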