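import Pool.Agent.Q284.E8.Root
import Pool.Agent.Q284.GE.AssA

/-!
# Project E8: the 248 eigenvalues of an element of `SL_9/μ_3 ⊂ E_8` and its traces
-/

set_option autoImplicit false

open Finset Polynomial ComplexConjugate

namespace Pool.Agent.Q284.E8

open Pool.Agent.Q284.GE

/-- index set of the `248 = 72 + 8 + 84 + 84` eigenvalues: pairs `i ≠ j`, the rank, two copies of the
three-element subsets of nine elements -/
abbrev Idx : Type := {p : Fin 9 × Fin 9 // p.1 ≠ p.2} ⊕ (Fin 8 ⊕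
  ({S : Finset (Fin 9) // S ∈ powersetCard 3 (univ : Finset (Fin 9))} ⊕
    {S : Finset (Fin 9) // S ∈ powersetCard 3 (univ : Finset (Fin 9))}))

/-- the eigenvalues of the image of `diag β` (`∏ β_j = 1`) in the adjoint representation of `E_8`
(`e_8 = sl_9 ⊕ Λ³ ⊕ Λ³*`): the numbers `β_i/β_j` (`i ≠ j`), eight times `1`, the products of three different `β_j`
and their inverses -/
noncomputable def adj (β : Fin 9 → ℂ) : Idx → ℂ :=
  Sum.elim (fun p => β p.1.1 / β p.1.2) (Sum.elim (fun _ => 1)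
    (Sum.elim (fun S => ∏ j ∈ S.1, β j) (fun S => (∏ j ∈ S.1, β j)⁻¹)))

theorem esym_three {n : ℕ} (x : Fin n → ℂ) :
    esym x 3 = ((∑ j, x j) ^ 3 - 3 * (∑ j, x j) * (∑ j, x j ^ 2) + 2 * ∑ j, x j ^ 3) / 6 := by
  have key : ∀ k : ℕ, MvPolynomial.eval x (MvPolynomial.esymm (Fin n) ℂ k) = esym x k := by
    intro k
    simp [MvPolynomial.esymm, esym, map_sum, map_prod]
  have kp : ∀ k : ℕ, MvPolynomial.eval x (MvPolynomial.psum (Fin n) ℂ k) = ∑ j, x j ^ k := by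
    intro k
    simp [MvPolynomial.psum]
  have h1 := congrArg (MvPolynomial.eval x) (MvPolynomial.mul_esymm_eq_sum (Fin n) ℂ 1)
  have h2 := congrArg (MvPolynomial.eval x) (MvPolynomial.mul_esymm_eq_sum (Fin n) ℂ 2)
  have h3 := congrArg (MvPolynomial.eval x) (MvPolynomial.mul_esymm_eq_sum (Fin n) ℂ 3)
  have f1 : (antidiagonal 1).filter (fun a : ℕ × ℕ => a.1 < 1) = {(0, 1)} := by decide
  have f2 : (antidiagonal 2).filter (fun a : ℕ × ℕ => a.1 < 2) = {(0, 2), (1, 1)} := by decide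
  have f3 : (antidiagonal 3).filter (fun a : ℕ × ℕ => a.1 < 3) = {(0, 3), (1, 2), (2, 1)} := by decide
  rw [f1] at h1
  rw [f2] at h2
  rw [f3] at h3
  have k0 : esym x 0 = 1 := by simp [esym]
  rw [sum_singleton] at h1
  rw [sum_pair (by decide)] at h2
  rw [sum_insert (by decide), sum_pair (by decide)] at h3
  simp only [map_mul, map_add, map_pow, map_neg, map_one, map_natCast, key, kp, k0, pow_one] at h1 h2 h3
  push_cast at h1 h2 h3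
  have e1 : esym x 1 = ∑ j, x j := by linear_combination h1
  have e2 : esym x 2 = ((∑ j, x j) ^ 2 - ∑ j, x j ^ 2) / 2 := by
    rw [e1] at h2
    linear_combination h2 / 2
  rw [e1, e2] at h3
  linear_combination h3 / 3

theorem sum_four {A B C D : Type} [Fintype A] [Fintype B] [Fintype C] [Fintype D] (f : A → ℂ) (g : B → ℂ) (h : C → ℂ)
    (l : D → ℂ) (k : ℕ) : ∑ i : A ⊕ (B ⊕ (C ⊕ D)), Sum.elim f (Sum.elim g (Sum.elim h l)) i ^ k =
      ∑ a, f a ^ k + (∑ b, g b ^ k + (∑ c, h c ^ k + ∑ d, l d ^ k)) := by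
  simp only [Fintype.sum_sum_type, Sum.elim_inl, Sum.elim_inr]

theorem sum_adj (β : Fin 9 → ℂ) (hβ : ∀ j, β j ≠ 0) (k : ℕ) :
    ∑ i, adj β i ^ k = (∑ j, β j ^ k) * (∑ j, (β j)⁻¹ ^ k) - 1 + esym (fun j => β j ^ k) 3 +
      esym (fun j => (β j)⁻¹ ^ k) 3 := by
  classical
  have h0 : ∑ i, adj β i ^ k = ∑ p : {p : Fin 9 × Fin 9 // p.1 ≠ p.2}, (β p.1.1 / β p.1.2) ^ k +
      (∑ _j : Fin 8, (1 : ℂ) ^ k +
        (∑ S : {S : Finset (Fin 9) // S ∈ powersetCard 3 (univ : Finset (Fin 9))}, (∏ j ∈ S.1, β j) ^ k +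
          ∑ S : {S : Finset (Fin 9) // S ∈ powersetCard 3 (univ : Finset (Fin 9))}, ((∏ j ∈ S.1, β j)⁻¹) ^ k)) := by
    exact sum_four _ _ _ _ k
  rw [h0]
  have h1 : ∑ p : {p : Fin 9 × Fin 9 // p.1 ≠ p.2}, (β p.1.1 / β p.1.2) ^ k =
      (∑ j, β j ^ k) * (∑ j, (β j)⁻¹ ^ k) - 9 := by
    have h2 := Fintype.sum_subtype_add_sum_subtype (fun p : Fin 9 × Fin 9 => p.1 = p.2)
      (fun p : Fin 9 × Fin 9 => (β p.1 / β p.2) ^ k)
    have h3 : ∑ p : {p : Fin 9 × Fin 9 // p.1 = p.2}, (β p.1.1 / β p.1.2) ^ k = 9 := by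
      rw [sum_congr rfl (g := fun _ => (1 : ℂ)) (fun p _ => by
        rw [p.2, div_self (hβ _), one_pow])]
      rw [sum_const, card_univ, nsmul_eq_mul, mul_one]
      have : Fintype.card {p : Fin 9 × Fin 9 // p.1 = p.2} = 9 := by decide
      rw [this]
      norm_num
    have h4 : ∑ p : Fin 9 × Fin 9, (β p.1 / β p.2) ^ k = (∑ j, β j ^ k) * (∑ j, (β j)⁻¹ ^ k) := by
      rw [Fintype.sum_prod_type, sum_mul_sum]
      apply sum_congr rfl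
      intro i _
      apply sum_congr rfl
      intro j _
      rw [div_eq_mul_inv, mul_pow]
    rw [h4, h3] at h2
    linear_combination h2
  have h2 : ∑ S : {S : Finset (Fin 9) // S ∈ powersetCard 3 (univ : Finset (Fin 9))}, ((∏ j ∈ S.1, β j)⁻¹) ^ k =
      esym (fun j => (β j)⁻¹ ^ k) 3 := by
    rw [← esym_pow_sum]
    apply sum_congr rfl
    intro S _
    rw [prod_inv_distrib]
  rw [h1, esym_pow_sum, h2]
  simp only [one_pow, sum_const, card_univ, Fintype.card_fin, nsmul_eq_mul]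
  push_cast
  ring

/-- the nine numbers `β_j = u α_j` (`j ≤ 8`), `β_9 = u^(-8)` -/
noncomputable def nine (u : ℝ) (α : Fin 8 → ℂ) : Fin 9 → ℂ := Fin.snoc (fun j => (u : ℂ) * α j) ((u : ℂ)⁻¹ ^ 8)

theorem nine_castSucc (u : ℝ) (α : Fin 8 → ℂ) (j : Fin 8) : nine u α j.castSucc = (u : ℂ) * α j := by
  unfold nine
  rw [Fin.snoc_castSucc]

theorem nine_last (u : ℝ) (α : Fin 8 → ℂ) : nine u α (Fin.last 8) = (u : ℂ)⁻¹ ^ 8 := by
  unfold nine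
  rw [Fin.snoc_last]

/-- the real number `T_k` -/
noncomputable def tr (u : ℝ) (π : ℕ → ℝ) (k : ℕ) : ℝ :=
  π k ^ 2 + (u ^ (9 * k) + u⁻¹ ^ (9 * k)) * π k +
    (u ^ (3 * k) + u⁻¹ ^ (3 * k)) * ((π k ^ 3 - 3 * π k * π (2 * k) + 2 * π (3 * k)) / 6) +
    (u ^ (6 * k) + u⁻¹ ^ (6 * k)) * ((π k ^ 2 - π (2 * k)) / 2)

theorem sum_nine {u : ℝ} {α : Fin 8 → ℂ} {π : ℕ → ℝ} (hπ : ∀ k, ∑ j, α j ^ k = (π k : ℂ)) (k : ℕ) :
    ∑ j, nine u α j ^ k = (u : ℂ) ^ k * π k + (u : ℂ)⁻¹ ^ (8 * k) := by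
  rw [Fin.sum_univ_castSucc, nine_last]
  simp only [nine_castSucc, mul_pow]
  rw [← mul_sum, hπ, ← pow_mul]

theorem sum_nine_inv {u : ℝ} {α : Fin 8 → ℂ} {π : ℕ → ℝ} (hn : ∀ j, ‖α j‖ = 1)
    (hπ : ∀ k, ∑ j, α j ^ k = (π k : ℂ)) (k : ℕ) :
    ∑ j, (nine u α j)⁻¹ ^ k = (u : ℂ)⁻¹ ^ k * π k + (u : ℂ) ^ (8 * k) := by
  rw [Fin.sum_univ_castSucc, nine_last]
  simp only [nine_castSucc]
  have h1 : ∀ j, ((u : ℂ) * α j)⁻¹ ^ k = (u : ℂ)⁻¹ ^ k * conj (α j ^ k) := by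
    intro j
    have h2 : (α j)⁻¹ = conj (α j) := by
      rw [Complex.inv_def, Complex.normSq_eq_norm_sq, hn j]
      norm_num
    rw [mul_inv, mul_pow, h2, map_pow]
  rw [sum_congr rfl (fun j _ => h1 j), ← mul_sum, ← map_sum, hπ, Complex.conj_ofReal]
  congr 1
  simp only [inv_pow, inv_inv]
  rw [← pow_mul]

theorem sum_adj_nine {u : ℝ} (hu : 0 < u) {α : Fin 8 → ℂ} {π : ℕ → ℝ} (hn : ∀ j, ‖α j‖ = 1)
    (hπ : ∀ k, ∑ j, α j ^ k = (π k : ℂ)) (k : ℕ) : ∑ i, adj (nine u α) i ^ k = (tr u π k : ℂ) := by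
  have hu0 : (u : ℂ) ≠ 0 := by exact_mod_cast hu.ne'
  have hα0 : ∀ j, α j ≠ 0 := by
    intro j h
    have := hn j
    rw [h, norm_zero] at this
    norm_num at this
  have h0 : ∀ j, nine u α j ≠ 0 := by
    intro j
    refine Fin.lastCases ?_ (fun i => ?_) j
    · rw [nine_last]
      exact pow_ne_zero _ (inv_ne_zero hu0)
    · rw [nine_castSucc]
      exact mul_ne_zero hu0 (hα0 i)
  have e1 : ∀ m : ℕ, ∑ j, (nine u α j ^ k) ^ m = (u : ℂ) ^ (m * k) * π (m * k) + (u : ℂ)⁻¹ ^ (8 * (m * k)) := by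
    intro m
    rw [← sum_nine hπ (m * k)]
    apply sum_congr rfl
    intro j _
    rw [← pow_mul, mul_comm]
  have e2 : ∀ m : ℕ, ∑ j, ((nine u α j)⁻¹ ^ k) ^ m = (u : ℂ)⁻¹ ^ (m * k) * π (m * k) + (u : ℂ) ^ (8 * (m * k)) := by
    intro m
    rw [← sum_nine_inv hn hπ (m * k)]
    apply sum_congr rfl
    intro j _
    rw [← pow_mul, mul_comm]
  have f1 := e1 1
  have f2 := e2 1
  simp only [pow_one, one_mul] at f1 f2
  rw [sum_adj _ h0, esym_three, esym_three, e1, e1, e2, e2, f1, f2]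
  unfold tr
  obtain ⟨w, hw⟩ : ∃ w : ℂ, w = (u : ℂ) ^ k := ⟨_, rfl⟩
  obtain ⟨v, hv⟩ : ∃ v : ℂ, v = (u : ℂ)⁻¹ ^ k := ⟨_, rfl⟩
  have hwv : w * v = 1 := by
    rw [hw, hv, ← mul_pow, mul_inv_cancel₀ hu0, one_pow]
  have g1 : ∀ m : ℕ, (u : ℂ) ^ (m * k) = w ^ m := fun m => by rw [hw, ← pow_mul, mul_comm]
  have g2 : ∀ m : ℕ, (u : ℂ)⁻¹ ^ (m * k) = v ^ m := fun m => by rw [hv, ← pow_mul, mul_comm]
  have g3 : (u : ℂ) ^ (8 * (2 * k)) = w ^ 16 := by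
    rw [← mul_assoc, g1]
    norm_num
  have g4 : (u : ℂ) ^ (8 * (3 * k)) = w ^ 24 := by
    rw [← mul_assoc, g1]
    norm_num
  have g5 : (u : ℂ)⁻¹ ^ (8 * (2 * k)) = v ^ 16 := by
    rw [← mul_assoc, g2]
    norm_num
  have g6 : (u : ℂ)⁻¹ ^ (8 * (3 * k)) = v ^ 24 := by
    rw [← mul_assoc, g2]
    norm_num
  have h2 : (w * v) ^ 2 = 1 := by rw [hwv, one_pow]
  have h8 : (w * v) ^ 8 = 1 := by rw [hwv, one_pow]
  push_cast
  rw [g3, g4, g5, g6, g1 8, g2 8, g1 2, g2 2, g1 3, g2 3, g1 9, g2 9, g1 6, g2 6, ← hw, ← hv]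
  linear_combination (π k : ℂ) ^ 2 * hwv + h8 +
    (((π k : ℂ) ^ 2 - π (2 * k)) / 2) * (v ^ 6 * h2 + w ^ 6 * h2)

end Pool.Agent.Q284.E8
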